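import Mathlib
import Pool.Agent.Y868.TH.Q8

/-!
# The Hardy-Littlewood formula in almost all progressions to large moduli, around `n² + 1`

The constant term `c` is fixed, for instance `c = 1`, and the other two coefficients of
`f(n) = a n² + b n + c` vary: `a ≤ D`, where `D` may be as small as a power of `log x`, and `b ≤ B` with
`B = D x` up to powers of `log x`. For all but `D B / (log x)^U` of the pairs `(a, b)`, the numbers of
primes `f(m)` with `m ≡ r (mod q)` are given by the Hardy-Littlewood formula, with its constant, in mean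
square over all residue classes `r` to all moduli `q ≤ x / (log x)^(U+4)`: the class of `r` gets nothing
if `f(r)` has a common factor with `q`, and otherwise `1 / φ_f(q)` of the expected number of all primes
`f(m)`, where `φ_f(q)` is the number of residues `r` modulo `q` with `gcd(f(r), q) = 1`. For a fixed pair
this is a theorem of the type of Barban, Davenport and Halberstam for the primes `a m² + b m + c`.

Proof. For small moduli (powers of `log x`) the classes are treated like the whole sequence: the primes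
are replaced by their sieve model for all but a few pairs, by means of dispersion, the large sieve and the
theorem of Bombieri and Vinogradov, and the model is evaluated on the class. For large moduli one passes
to the exponential sums of the difference of the primes `f(m)` and of the multiple of the sequence of
integers prime to `x!` that has the same density in all the classes; at the fractions with large
denominators both are small in mean square by the large sieve, and those with small denominators come
from small moduli.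
-/

set_option autoImplicit false

namespace Pool.Agent.Results.MP_484c84_nt.AlmostAllProgressions

open Finset Filter Topology

/-- the triple `(a, b, c)` is admissible -/
def Admissible (a b c : ℤ) : Prop :=
  0 < a ∧ (∀ d : ℤ, d ∣ a → d ∣ b → d ∣ c → IsUnit d) ∧ ¬ ((2 : ℤ) ∣ a + b ∧ (2 : ℤ) ∣ c) ∧
    ¬ IsSquare (b ^ 2 - 4 * a * c)

/-- the number of `u < m ≤ v` with `m ≡ r (mod q)` for which `a m² + b m + c` is a (positive) prime -/
def primeCount (a b : ℕ) (c : ℤ) (u v q r : ℕ) : ℕ :=
  #((Ioc u v).filter (fun m : ℕ => m % q = r ∧ ((a : ℤ) * (m : ℤ) ^ 2 + b * m + c).toNat.Prime))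

/-- `φ_f(q)`, the number of residues `r` modulo `q` with `gcd(a r² + b r + c, q) = 1` -/
def phi (a b : ℕ) (c : ℤ) (q : ℕ) : ℕ :=
  #((range q).filter (fun r : ℕ => Int.gcd ((a : ℤ) * (r : ℤ) ^ 2 + b * r + c) q = 1))

/-- the density expected in the class of `r` modulo `q`: `1 / φ_f(q)` if `gcd(a r² + b r + c, q) = 1`, and
`0` if not -/
noncomputable def density (a b : ℕ) (c : ℤ) (q r : ℕ) : ℝ :=
  if Int.gcd ((a : ℤ) * (r : ℤ) ^ 2 + b * r + c) q = 1 then 1 / (phi a b c q : ℝ) else 0

/-- `ε = 2` if `a + b` is even and `ε = 1` if `a + b` is odd -/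
noncomputable def eps (a b : ℤ) : ℝ := if (2 : ℤ) ∣ a + b then 2 else 1

/-- the product `∏_{p > 2, p ∣ gcd(a, b)} p / (p - 1)` -/
noncomputable def gcdProd (a b : ℤ) : ℝ :=
  ∏ p ∈ (Int.gcd a b).primeFactors.filter (fun p => 2 < p), (p : ℝ) / (p - 1)

/-- the product `∏_{2 < p ≤ z, p ∤ a} (1 - (D / p) / (p - 1))`, where `D = b² - 4 a c` -/
noncomputable def partialC (a b c : ℤ) (z : ℕ) : ℝ :=
  ∏ p ∈ (Icc 3 z).filter (fun p : ℕ => p.Prime ∧ ¬ (p : ℤ) ∣ a),
    (1 - (jacobiSym (b ^ 2 - 4 * a * c) p : ℝ) / (p - 1))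

/-- **The Hardy-Littlewood formula in almost all progressions, for almost all pairs `(a, b)`.** Let
`U, K ≥ 0`. There are `C` and `x0` such that the following holds for `x ≥ x0`. Let
`(log x)^C ≤ D ≤ x^K` and `D x (log x)^(-K) ≤ B ≤ D x (log x)^K`, and let `c ≠ 0` with `|c|^30 ≤ x`. Then
for all but at most `D B / (log x)^U` of the pairs `(a, b)` with `a ≤ D` and `b ≤ B`: if `(a, b, c)` is
admissible, the product `C(a, b, c)` converges to a number `S > 0` and, with
`M = ε S ∏_{p > 2, p ∣ gcd(a, b)} p / (p - 1)`, for all `u < v ≤ x` and all `Q ≤ x / (log x)^(U+4)` the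
sum over all moduli `q ≤ Q` and all residues `r` modulo `q` of the squares of the differences between the
number of `u < m ≤ v`, `m ≡ r (mod q)`, with `a m² + b m + c` prime and
`density(q, r) M ∑_{u < m ≤ v} 1 / log (a m² + b m + c)` is at most `x² / (log x)^U`. -/
theorem result (U K : ℕ) : ∃ C x0 : ℕ, ∀ x : ℕ, x0 ≤ x → ∀ D B : ℕ, Real.log x ^ C ≤ D →
    (D : ℝ) ≤ (x : ℝ) ^ K → (D : ℝ) * x ≤ B * Real.log x ^ K → (B : ℝ) ≤ D * x * Real.log x ^ K →
    ∀ c : ℤ, c ≠ 0 → |c| ^ 30 ≤ (x : ℤ) →
    ∃ Bad ⊆ Icc 1 D ×ˢ Icc 1 B, (#Bad : ℝ) ≤ D * B / Real.log x ^ U ∧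
      ∀ a ∈ Icc 1 D, ∀ b ∈ Icc 1 B, (a, b) ∉ Bad → Admissible a b c →
        ∃ S : ℝ, 0 < S ∧ Tendsto (fun z => partialC a b c z) atTop (𝓝 S) ∧
          ∀ u v : ℕ, u < v → v ≤ x → ∀ Q : ℕ, (Q : ℝ) * Real.log x ^ (U + 4) ≤ x →
            ∑ q ∈ Icc 1 Q, ∑ r ∈ range q, ((primeCount a b c u v q r : ℝ) - density a b c q r *
              (eps a b * S * gcdProd a b *
                ∑ m ∈ Ioc u v, 1 / Real.log ((a : ℝ) * m ^ 2 + b * m + c))) ^ 2 ≤
              x ^ 2 / Real.log x ^ U :=
  Pool.Agent.Y868.TH.hlF U K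

end Pool.Agent.Results.MP_484c84_nt.AlmostAllProgressions
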