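import Mathlib
import Pool.Agent.Y122.MH.Sq
import Pool.Agent.Y122.MH.Tr

set_option autoImplicit false

/-!
# The Hardy–Littlewood asymptotic for `n ^ 2 + 1`, for all `α` outside a set of dimension less than one

For `α > 0` and a sieving limit `k` let `count α k N` be the number of the `n ≤ N` such that
`n ^ 2 + 1` has no prime factor `≤ k` and the `k`-rough part of `⌊α (n ^ 2 + 1)⌋` is a prime number.
For `α = 1` both conditions concern the same number, and they say that `n ^ 2 + 1` is a prime `> k`.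

The law `Law α L` says that `count α (z N) N` is asymptotic to `(L / 2) ∫_2^N dt / log t` whenever
`z N → ∞` and `9 z N ≤ log₂ N`.  With the constant `L` of Hardy and Littlewood, `Law 1 L` is equivalent
to their conjecture for the primes `n ^ 2 + 1`.  We prove `Law α L` for all `α > 0` outside a set of
Hausdorff dimension less than one.

Proof (library `Pool.Agent.Y122.MH`, new, on top of van der Corput's method from the starting library).
For `a = log α` and an arbitrary set `T` of positive integers, the number of the `n` in a short interval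
`(A, B]` and in given residue classes modulo `Q ≤ A ^ (1/4)` with `⌊α f(n)⌋ ∈ T` is compared with the
corresponding integral, in mean square over `a` in an interval of length one: the Fourier transform in `a`
of the difference is the Fourier transform of the indicator of `T` on the logarithmic scale times the
difference of an exponential sum and an exponential integral with phase `ξ log f`; for `|ξ| ≤ A ^ M` this
difference is at most `A ^ (1 - κ)`, and higher frequencies are cut off since the indicator has bounded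
variation.  So the mean square is at most `A ^ (2 - κ)`.  The parameters where the error is large lie in
few short intervals, which bounds the dimension.  The main term is evaluated with the prime number theorem
for numbers whose rough part is prime, and the local densities of `n ^ 2 + 1` combine with the factor
`∏ (1 - 1 / p)⁻¹` from the rough parts to the constant of Hardy and Littlewood.
-/

namespace Pool.Agent.Results.MP_484c84_nt.MetricHardyLittlewood

open Filter Topology MeasureTheory

/-- The `k`-rough part of `m`: the product, with multiplicity, of the prime factors of `m` that are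
larger than `k`. -/
def rough (k m : ℕ) : ℕ := (m.primeFactorsList.filter (fun p => k < p)).prod

open Classical in
/-- The number of the `n ≤ N` for which `n ^ 2 + 1` has no prime factor `≤ k` and the `k`-rough part of
`⌊α (n ^ 2 + 1)⌋` is a prime number. -/
noncomputable def count (α : ℝ) (k N : ℕ) : ℕ :=
  ((Finset.Icc 1 N).filter (fun n : ℕ => (∀ p : ℕ, p.Prime → p ≤ k → ¬ p ∣ n ^ 2 + 1) ∧
    (rough k ⌊α * ((n : ℝ) ^ 2 + 1)⌋₊).Prime)).card

/-- The asymptotic formula with the constant `L / 2`, for all sieving limits `z N → ∞` that are at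
most `(log₂ N) / 9`. -/
def Law (α L : ℝ) : Prop :=
  ∀ z : ℕ → ℕ, Tendsto z atTop atTop → (∀ᶠ N in atTop, 9 * z N ≤ Nat.log 2 N) →
    Tendsto (fun N : ℕ => (count α (z N) N : ℝ) / ∫ t in (2 : ℝ)..(N : ℝ), 1 / Real.log t) atTop
      (𝓝 (L / 2))

open Pool.Agent.Y122.MH in
lemma count_eq {α : ℝ} (hα : 0 < α) (hirr : Irrational α) (k N : ℕ) :
    count α k N = cn f1 k (Real.log α) 0 N := by
  classical
  unfold count cn
  have h0 : Finset.Icc 1 N = Finset.Ioc 0 N := by
    ext n
    simp only [Finset.mem_Icc, Finset.mem_Ioc]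
    omega
  rw [h0]
  congr 1
  refine Finset.filter_congr fun n _ => ?_
  refine and_congr ?_ ?_
  · rw [Cop_primorial]
    refine forall_congr' fun p => forall_congr' fun _ => forall_congr' fun _ => not_congr ?_
    rw [f1_eval, ← Int.natCast_dvd_natCast]
    push_cast
    rfl
  · have h1 : (gR f1).eval (n : ℝ) = (n : ℝ) ^ 2 + 1 := by
      rw [gR_eval, f1_eval]
      push_cast
      rfl
    rw [h1, NN_floor (by positivity) hα]
    · rfl
    · have h2 : ((n : ℝ) ^ 2 + 1) = ((n ^ 2 + 1 : ℕ) : ℝ) := by push_cast; rfl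
      rw [h2]
      exact hirr.mul_natCast (by positivity)

lemma count_one (k N : ℕ) :
    count 1 k N = ((Finset.Icc 1 N).filter (fun n => (n ^ 2 + 1).Prime ∧ k < n ^ 2 + 1)).card := by
  classical
  unfold count
  congr 1
  refine Finset.filter_congr fun n _ => ?_
  have h1 : ⌊(1 : ℝ) * ((n : ℝ) ^ 2 + 1)⌋₊ = n ^ 2 + 1 := by
    rw [one_mul, show ((n : ℝ) ^ 2 + 1) = ((n ^ 2 + 1 : ℕ) : ℝ) by push_cast; rfl, Nat.floor_natCast]
  rw [h1]
  exact Pool.Agent.Y122.MH.rough_one (by omega)

lemma count_one_near (k N : ℕ) :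
    |(count 1 k N : ℝ) - (((Finset.Icc 1 N).filter (fun n => (n ^ 2 + 1).Prime)).card : ℝ)| ≤ k := by
  rw [count_one]
  have h1 : ((Finset.Icc 1 N).filter (fun n => (n ^ 2 + 1).Prime ∧ k < n ^ 2 + 1)).card ≤
      ((Finset.Icc 1 N).filter (fun n => (n ^ 2 + 1).Prime)).card :=
    Finset.card_le_card (Finset.monotone_filter_right _ fun n _ h => h.1)
  have h2 : ((Finset.Icc 1 N).filter (fun n => (n ^ 2 + 1).Prime)).card ≤
      ((Finset.Icc 1 N).filter (fun n => (n ^ 2 + 1).Prime ∧ k < n ^ 2 + 1)).card + k := by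
    have h3 : (Finset.Icc 1 N).filter (fun n => (n ^ 2 + 1).Prime) ⊆
        (Finset.Icc 1 N).filter (fun n => (n ^ 2 + 1).Prime ∧ k < n ^ 2 + 1) ∪ Finset.range k := by
      intro n hn
      rw [Finset.mem_filter] at hn
      rw [Finset.mem_union, Finset.mem_filter, Finset.mem_range]
      by_cases h : k < n ^ 2 + 1
      · exact Or.inl ⟨hn.1, hn.2, h⟩
      · right
        nlinarith [Nat.le_self_pow (n := 2) (by norm_num) n]
    refine (Finset.card_le_card h3).trans ((Finset.card_union_le _ _).trans ?_)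
    rw [Finset.card_range]
  have h1' : (((Finset.Icc 1 N).filter (fun n => (n ^ 2 + 1).Prime ∧ k < n ^ 2 + 1)).card : ℝ) ≤
      ((Finset.Icc 1 N).filter (fun n => (n ^ 2 + 1).Prime)).card := by exact_mod_cast h1
  have h2' : (((Finset.Icc 1 N).filter (fun n => (n ^ 2 + 1).Prime)).card : ℝ) ≤
      ((Finset.Icc 1 N).filter (fun n => (n ^ 2 + 1).Prime ∧ k < n ^ 2 + 1)).card + k := by exact_mod_cast h2
  rw [abs_le]
  constructor <;> linarith

/-- the sieving limit is small compared with the number of primes -/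
lemma small (z : ℕ → ℕ) (hz : ∀ᶠ N in atTop, 9 * z N ≤ Nat.log 2 N) :
    Tendsto (fun N : ℕ => (z N : ℝ) / ∫ t in (2 : ℝ)..(N : ℝ), 1 / Real.log t) atTop (𝓝 0) := by
  have hlog : Tendsto (fun N : ℕ => Nat.log 2 N) atTop atTop :=
    tendsto_atTop.2 fun b => Pool.Agent.Y122.MH.log_large b
  have h1 := (tendsto_pow_const_div_const_pow_of_one_lt 2 (show (1 : ℝ) < 2 by norm_num)).comp hlog
  have h2 := h1.const_mul 4
  rw [mul_zero] at h2
  refine squeeze_zero' ?_ ?_ h2
  · filter_upwards [Pool.Agent.Y122.MH.log_large 3, eventually_ge_atTop 1] with N h3 h4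
    have h5 := Pool.Agent.Y122.MH.li_low h3 (Nat.pow_log_le_self 2 (by omega))
      (Nat.lt_pow_succ_log_self (by norm_num) N).le
    have h6 : 0 ≤ ∫ t in (2 : ℝ)..(N : ℝ), 1 / Real.log t := le_trans (by positivity) h5
    positivity
  · filter_upwards [hz, Pool.Agent.Y122.MH.log_large 3, eventually_ge_atTop 1] with N h0 h3 h4
    have h5 := Pool.Agent.Y122.MH.li_low h3 (Nat.pow_log_le_self 2 (by omega))
      (Nat.lt_pow_succ_log_self (by norm_num) N).le
    set I := Nat.log 2 N with hI
    have hI0 : (0 : ℝ) < I := by exact_mod_cast (by omega : 0 < I)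
    have h6 : (z N : ℝ) ≤ I := by exact_mod_cast (by omega : z N ≤ I)
    have h7 : (0 : ℝ) < 2 ^ I / (4 * I) := by positivity
    calc (z N : ℝ) / ∫ t in (2 : ℝ)..(N : ℝ), 1 / Real.log t ≤ I / (2 ^ I / (4 * I)) :=
          div_le_div₀ hI0.le h6 h7 h5
      _ = 4 * ((I : ℝ) ^ 2 / 2 ^ I) := by field_simp

lemma law_one (L : ℝ) : Law 1 L ↔
    Tendsto (fun N : ℕ => (((Finset.Icc 1 N).filter (fun n => (n ^ 2 + 1).Prime)).card : ℝ) /
      ∫ t in (2 : ℝ)..(N : ℝ), 1 / Real.log t) atTop (𝓝 (L / 2)) := by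
  have key : ∀ z : ℕ → ℕ, (∀ᶠ N in atTop, 9 * z N ≤ Nat.log 2 N) →
      Tendsto (fun N : ℕ => (count 1 (z N) N : ℝ) / (∫ t in (2 : ℝ)..(N : ℝ), 1 / Real.log t) -
        (((Finset.Icc 1 N).filter (fun n => (n ^ 2 + 1).Prime)).card : ℝ) /
      ∫ t in (2 : ℝ)..(N : ℝ), 1 / Real.log t) atTop (𝓝 0) := by
    intro z hz
    refine squeeze_zero_norm' ?_ (small z hz)
    filter_upwards [Pool.Agent.Y122.MH.log_large 3, eventually_ge_atTop 1] with N h3 h4
    have h5 := Pool.Agent.Y122.MH.li_low h3 (Nat.pow_log_le_self 2 (by omega))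
      (Nat.lt_pow_succ_log_self (by norm_num) N).le
    have h6 : 0 ≤ ∫ t in (2 : ℝ)..(N : ℝ), 1 / Real.log t := le_trans (by positivity) h5
    rw [← sub_div, Real.norm_eq_abs, abs_div, abs_of_nonneg h6]
    exact div_le_div_of_nonneg_right (count_one_near _ _) h6
  constructor
  · intro h
    have hlog : Tendsto (fun N : ℕ => Nat.log 2 N / 9) atTop atTop := by
      refine tendsto_atTop.2 fun b => ?_
      filter_upwards [Pool.Agent.Y122.MH.log_large (9 * b)] with N hN
      exact (Nat.le_div_iff_mul_le (by norm_num)).2 (by omega)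
    have hz9 : ∀ᶠ N in atTop, 9 * (Nat.log 2 N / 9) ≤ Nat.log 2 N :=
      Eventually.of_forall fun N => Nat.mul_div_le _ 9
    have h1 := (h _ hlog hz9).sub (key _ hz9)
    rw [sub_zero] at h1
    exact h1.congr fun N => by ring
  · intro h z _ hz9
    have h1 := h.add (key z hz9)
    rw [add_zero] at h1
    exact h1.congr fun N => by ring

theorem result : ∃ L : ℝ, 0 < L ∧
    Tendsto (fun x : ℕ => ∏ p ∈ (Finset.range (x + 1)).filter (fun p => p.Prime ∧ Odd p),
      (1 - (((ZMod.χ₄ (p : ZMod 4) : ℤ) : ℝ)) / ((p : ℝ) - 1))) atTop (𝓝 L) ∧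
    (∀ k N : ℕ, count 1 k N =
      ((Finset.Icc 1 N).filter (fun n => (n ^ 2 + 1).Prime ∧ k < n ^ 2 + 1)).card) ∧
    (Law 1 L ↔
      Tendsto (fun N : ℕ => (((Finset.Icc 1 N).filter (fun n => (n ^ 2 + 1).Prime)).card : ℝ) /
        ∫ t in (2 : ℝ)..(N : ℝ), 1 / Real.log t) atTop (𝓝 (L / 2))) ∧
    ∃ E : Set ℝ, dimH E < 1 ∧ ∀ α : ℝ, 0 < α → α ∉ E → Law α L := by
  obtain ⟨L, hL0, hL⟩ := Pool.Agent.Y122.MH.PP_tendsto
  refine ⟨L, hL0, hL, count_one, law_one L, ?_⟩
  obtain ⟨E, hE, h⟩ := Pool.Agent.Y122.MH.final Pool.Agent.Y122.MH.f1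
    (by rw [Pool.Agent.Y122.MH.f1_natDegree]; norm_num)
    (by rw [Pool.Agent.Y122.MH.f1_leadingCoeff]; norm_num) (Pool.Agent.Y122.MH.DV_tendsto hL)
  obtain ⟨E', hE', h'⟩ := Pool.Agent.Y122.MH.dim_exp hE
  refine ⟨E', hE', fun α hα hαE z hz hz9 => ?_⟩
  obtain ⟨hirr, hlog⟩ := h' α hαE
  have h1 := h (Real.log α) (hlog hα) z hz hz9
  rw [Pool.Agent.Y122.MH.f1_natDegree] at h1
  push_cast at h1
  refine h1.congr fun N => ?_
  rw [count_eq hα hirr]
  rfl

end Pool.Agent.Results.MP_484c84_nt.MetricHardyLittlewood
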