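import Pool.Agent.Y175.JP.Proc

set_option autoImplicit false

/-!
# The process of the `m` with `m ^ 2 + 1` almost prime, seen from one of its points

Definitions used, for the function `v = value` (`v m = m ^ 2 + 1`):
`Good v 2 r X m` (`Pool.Agent.Y175.PW`): `v m` has at most `2 r` prime factors (with multiplicity), all
larger than `X ^ (1 / r)`; we say that `m` is good. From `Pool.Agent.Y175.JP`:
`Admissible v H`: for every prime `p` there is `m` such that `p` divides none of the `v (m + h)`,
`h ∈ H`; `Occurs v 2 r X H D m`: the good integers in `[m, m + D]` are exactly the `m + h`, `h ∈ H`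
(for `H = {0}`, `D = 0`: `m` is good);
`Occ v 2 r X H D a b`: the number of the `m` in `(a, b]` with this property;
`VH v H r X`: the product over the primes `p ≤ X ^ (1 / r)` of `1 - ω / p`, where `ω` is the number of
the residue classes `m` modulo `p` for which `p` divides `v (m + h)` for some `h ∈ H`. Finally
`poisson x j = exp (-x) x ^ j / j!`.
-/

namespace Pool.Agent.Results.MP_484c84_nt.PalmLaw

open Finset Filter
open Pool.Agent.Y175.PW Pool.Agent.Y175.JP

/-- The values of the polynomial. -/
def value (m : ℕ) : ℤ := (m : ℤ) ^ 2 + 1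

open Classical in
/-- **The process seen from a typical point.** Let `H₀` be an admissible pattern, for example `{0}`. The
number of its occurrences `b` in `(X, X + Y]` is asymptotically `Y` times its sieve density, and after a
typical occurrence of `H₀` all admissible patterns with at least as many elements form independent
Poisson processes: for all windows `(b + a i, b + a i + T i]` of bounded mean (disjoint for equal
patterns) and all finite sets `B` of vectors. -/
theorem result (H₀ : Finset ℕ) (D₀ : ℕ) {ι : Type} [Fintype ι] (H : ι → Finset ℕ) (D : ι → ℕ)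
    (h00 : 0 ∈ H₀) (hD0 : ∀ h ∈ H₀, h ≤ D₀) (hadm0 : Admissible value H₀)
    (h0 : ∀ i, 0 ∈ H i) (hD : ∀ i, ∀ h ∈ H i, h ≤ D i) (hadm : ∀ i, Admissible value (H i))
    (hle : ∀ i, H₀.card ≤ (H i).card) (θ : ℝ) (hθ : 0 < θ) (x₀ ε : ℝ) (hε : 0 < ε) :
    ∃ r₀ : ℕ, ∀ r : ℕ, r₀ ≤ r → ∀ᶠ X : ℕ in atTop, ∀ Y : ℕ, (X : ℝ) ^ θ ≤ Y → Y ≤ X →
      ∀ a T : ι → ℕ,
      (∀ i j, i ≠ j → H i = H j → (a i + T i ≤ a j ∨ a j + T j ≤ a i)) →
      (∀ i, ((a i : ℝ) + T i) * VH value (H i) r X ≤ x₀) →
      ∀ B : Finset (ι → ℕ),
        |(((Finset.Ioc X (X + Y)).filter (fun b => Occurs value 2 r X H₀ D₀ b ∧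
            (fun i => Occ value 2 r X (H i) (D i) (b + a i) (b + a i + T i)) ∈ B)).card : ℝ) -
          Y * VH value H₀ r X * ∑ j ∈ B, ∏ i, poisson (T i * VH value (H i) r X) (j i)| ≤
          ε * (Y * VH value H₀ r X) :=
  palm_law (vals_quad 1 0 1 one_pos
    (fun p hp h => by
      have : p ∣ 1 := by exact_mod_cast h.1
      exact hp.one_lt.ne' (Nat.dvd_one.1 this))
    (fun h => by
      have h1 := h.1
      rw [add_zero] at h1
      exact absurd h1 (by decide))
    (by
      rintro ⟨s, hs⟩
      have h1 : s * s = -4 := by linarith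
      nlinarith [mul_self_nonneg s]) value (fun m => by unfold value; ring))
    H₀ D₀ H D h00 hD0 hadm0 h0 hD hadm hle θ hθ x₀ ε hε

end Pool.Agent.Results.MP_484c84_nt.PalmLaw
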