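import Pool.Agent.Y843.AQ.Cnt

/-!
# Progressions of `n` with `a n ^ 2 + b n + c` prime, for almost all `(a, b)`

The constant term `c` is fixed, for instance `c = 1`, and the other two coefficients vary in a box
`a ≤ D`, `b ≤ B`, where `D` may be as small as a power of `log x` and `B` is `D x` up to powers of `log x`. For
all but `D B / log ^ U x` of the pairs `(a, b)` (one exceptional set for all that follows) for which no prime
divides all the values of `f(n) = a n ^ 2 + b n + c`: the number of the progressions of `k` terms, with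
differences at most `T`, of integers `n` of an interval of length `X ≥ x / log ^ U x` with `f(n)` prime is of
the order `X T V ^ k` for all `T ≥ log ^ A x`, and the same is true for every subset of these integers of
positive relative density. So the prime values of 100 percent of the quadratic polynomials around `n ^ 2 + 1`
satisfy a theorem of Green and Tao with counts, in the shortest range of the differences.
-/

set_option autoImplicit false

namespace Pool.Agent.Results.MP_484c84_nt.ProgressionsOfPrimes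

open Finset

/-- The ranges of the coefficients. -/
def Rng (C K x D B c : ℕ) : Prop :=
  Real.log x ^ C ≤ D ∧ (D : ℝ) ≤ (x : ℝ) ^ K ∧ (D : ℝ) * x ≤ B * Real.log x ^ K ∧
    (B : ℝ) ≤ D * x * Real.log x ^ K ∧ 1 ≤ c ∧ c ≤ B * x

/-- No prime divides all the values of `a n ^ 2 + b n + c`. -/
def Possible (a b c : ℕ) : Prop := ∀ p : ℕ, p.Prime → ∃ n : ℕ, ¬ p ∣ a * n ^ 2 + b * n + c

/-- The roots of `a n ^ 2 + b n + c` modulo `p`. -/
def roots (a b c p : ℕ) : Finset ℕ := (range p).filter (fun n => p ∣ a * n ^ 2 + b * n + c)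

/-- The proportion of the integers `n` such that no prime `≤ x` divides `a n ^ 2 + b n + c`. -/
noncomputable def V (a b c x : ℕ) : ℝ :=
  ∏ p ∈ (Ioc 0 x).filter Nat.Prime, (1 - ((roots a b c p).card : ℝ) / p)

/-- The integers `n` of `(u, v]` for which `a n ^ 2 + b n + c` is a prime. -/
def P (a b c u v : ℕ) : Finset ℕ := (Ioc u v).filter (fun n => (a * n ^ 2 + b * n + c).Prime)

open Classical in
/-- The number of the progressions `n, n + d, …, n + (k - 1) d` in `S` with `1 ≤ d ≤ T`. -/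
noncomputable def AP (k T : ℕ) (S : Finset ℕ) : ℕ :=
  ((S ×ˢ Icc 1 T).filter (fun q => ∀ j < k, q.1 + j * q.2 ∈ S)).card

open Classical in
/-- The elements of `S` which lie in no progression of `k` elements of `S` with a difference in `[1, T]`. -/
noncomputable def outside (k : ℕ) (T : ℝ) (S : Finset ℕ) : Finset ℕ :=
  S.filter (fun n => ¬ ∃ m d : ℕ, 1 ≤ d ∧ (d : ℝ) ≤ T ∧ (∀ j < k, m + j * d ∈ S) ∧ ∃ j < k, n = m + j * d)

lemma AP_eq (k T : ℕ) (S : Finset ℕ) : AP k T S = (Pool.Agent.Y843.AC.APs k T S).card := rfl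

theorem V_eq (a b c x : ℕ) : V a b c x = Pool.Agent.Y843.HS.VV (Pool.Agent.Y843.QD.Zq a b c) 0 x := by
  unfold V Pool.Agent.Y843.HS.VV
  apply prod_congr rfl
  intro p _
  have : roots a b c p = Pool.Agent.Y843.QD.Zq a b c p := by
    unfold roots Pool.Agent.Y843.QD.Zq
    apply filter_congr
    intro n _
    rw [← Int.natCast_dvd_natCast]
    push_cast
    rfl
  rw [this]

/-- the exceptional elements -/
theorem most {a b c u v : ℕ} (ha : 1 ≤ a) (x : ℕ) (hx : 1 ≤ x) (S : Finset ℕ) (hS : S ⊆ P a b c u v) :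
    Pool.Agent.Y843.AC.Gn.Most 1 4 (1 / 2) x (Pool.Agent.Y843.QD.Zq a b c) S := by
  classical
  unfold Pool.Agent.Y843.AC.Gn.Most
  obtain ⟨w, hw⟩ : ∃ w : ℝ, w = (x : ℝ) ^ (1 / ((4 : ℕ) : ℝ)) := ⟨_, rfl⟩
  have hw0 : 0 ≤ w := by rw [hw]; positivity
  have h1 : S.filter (fun n => ¬ Pool.Agent.Y843.AC.Gn.Ro 4 x (Pool.Agent.Y843.QD.Zq a b c) n) ⊆ Icc 1 ⌊w⌋₊ := by
    intro n hn
    rw [mem_filter] at hn
    obtain ⟨hnS, hn2⟩ := hn
    unfold Pool.Agent.Y843.AC.Gn.Ro at hn2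
    push Not at hn2
    obtain ⟨p, hp, hpx, hmem⟩ := hn2
    rw [Pool.Agent.Y843.QD.mem_Zq hp.pos] at hmem
    have h2 : p ∣ a * n ^ 2 + b * n + c := by exact_mod_cast hmem
    have h3 := hS hnS
    unfold P at h3
    rw [mem_filter, mem_Ioc] at h3
    have h4 := (Nat.prime_dvd_prime_iff_eq hp h3.2).1 h2
    have h5 : n ≤ p := by
      rw [h4]
      have h6 : n ≤ n ^ 2 := Nat.le_self_pow (by norm_num) n
      have h7 : n ^ 2 ≤ a * n ^ 2 := Nat.le_mul_of_pos_left _ ha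
      omega
    rw [mem_Icc]
    refine ⟨by omega, h5.trans ?_⟩
    rw [← hw] at hpx
    exact Nat.le_floor hpx
  have h2 : ((S.filter (fun n => ¬ Pool.Agent.Y843.AC.Gn.Ro 4 x (Pool.Agent.Y843.QD.Zq a b c) n)).card : ℝ) ≤
      ⌊w⌋₊ := by
    have h3 := card_le_card h1
    rw [Nat.card_Icc, Nat.add_sub_cancel] at h3
    exact_mod_cast h3
  refine h2.trans ((Nat.floor_le hw0).trans (le_of_eq ?_))
  rw [hw, one_mul]
  norm_num

theorem P_sub (a b c u v : ℕ) (huv : u ≤ v) : P a b c u v ⊆ Ioc u (u + (v - u)) := by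
  have : u + (v - u) = v := by omega
  rw [this]
  unfold P
  exact filter_subset _ _

/-- long windows -/
theorem wide (U : ℕ) : ∃ x₀ : ℕ, ∀ x : ℕ, x₀ ≤ x → ∀ u v : ℕ, u ≤ v → v ≤ x →
    (x : ℝ) ≤ ((v : ℝ) - u) * Real.log x ^ U →
    (x : ℝ) ^ (1 / 2 : ℝ) ≤ ((v - u : ℕ) : ℝ) ∧ v - u ≤ x ∧ ((v - u : ℕ) : ℝ) = (v : ℝ) - u := by
  obtain ⟨x₀, h⟩ := Pool.Agent.Y843.AQ.evlog U 1 (show (0 : ℝ) < 1 / 2 by norm_num)
  refine ⟨max x₀ 3, fun x hx u v huv hvx hlong => ?_⟩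
  have h1 := h x (by omega)
  rw [one_mul] at h1
  have hc : ((v - u : ℕ) : ℝ) = (v : ℝ) - u := Nat.cast_sub huv
  refine ⟨?_, by omega, hc⟩
  have hx0 : (0 : ℝ) < x := by exact_mod_cast (show 0 < x by omega)
  have h2 : (x : ℝ) ^ (1 / 2 : ℝ) * (x : ℝ) ^ (1 / 2 : ℝ) = x := by
    rw [← Real.rpow_add hx0]
    norm_num
  have h3 : 0 < (x : ℝ) ^ (1 / 2 : ℝ) := Real.rpow_pos_of_pos hx0 _
  rw [← hc] at hlong
  have h4 : (x : ℝ) ^ (1 / 2 : ℝ) * (x : ℝ) ^ (1 / 2 : ℝ) ≤ ((v - u : ℕ) : ℝ) * (x : ℝ) ^ (1 / 2 : ℝ) := by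
    rw [h2]
    exact hlong.trans (mul_le_mul_of_nonneg_left h1 (Nat.cast_nonneg _))
  exact le_of_mul_le_mul_right h4 h3

theorem up (U k : ℕ) (hk : 1 ≤ k) : ∃ C₁ : ℝ, 0 < C₁ ∧ ∃ A x₀ : ℕ, ∀ x : ℕ, x₀ ≤ x →
    ∀ a b c : ℕ, 1 ≤ a → Possible a b c → ∀ u v : ℕ, u ≤ v → v ≤ x →
    (x : ℝ) ≤ ((v : ℝ) - u) * Real.log x ^ U → ∀ T : ℕ, Real.log x ^ A ≤ T → ∀ S ⊆ P a b c u v,
    (AP k T S : ℝ) ≤ C₁ * (((v : ℝ) - u) * T * V a b c x ^ k) := by
  obtain ⟨C, hC, A, n₀, h⟩ := Pool.Agent.Y843.AC.Gn.up 2 k 4 1 hk (by norm_num) (show (0 : ℝ) < 1 / 2 by norm_num)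
  obtain ⟨n₁, h1⟩ := wide U
  refine ⟨C, hC, A, max (max n₀ n₁) 1, ?_⟩
  intro x hx a b c ha hpos u v huv hvx hlong T hT S hS
  obtain ⟨g1, g2, g3⟩ := h1 x (by omega) u v huv hvx hlong
  have h2 := h x (by omega) (Pool.Agent.Y843.QD.Zq a b c) (Pool.Agent.Y843.AQ.cl hpos x) u (v - u) T g1 g2 hT S
    (hS.trans (P_sub a b c u v huv)) (most ha x (by omega) S hS)
  rw [g3, ← V_eq] at h2
  exact h2

theorem dn (U k : ℕ) (hk : 1 ≤ k) (δ : ℝ) (hδ : 0 < δ) : ∃ c₁ : ℝ, 0 < c₁ ∧ ∃ A x₀ : ℕ, ∀ x : ℕ, x₀ ≤ x →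
    ∀ a b c : ℕ, 1 ≤ a → Possible a b c → ∀ u v : ℕ, u ≤ v → v ≤ x →
    (x : ℝ) ≤ ((v : ℝ) - u) * Real.log x ^ U → ∀ T : ℕ, Real.log x ^ A ≤ T → T ≤ v - u →
    ∀ S ⊆ P a b c u v, δ * (((v : ℝ) - u) * V a b c x) ≤ S.card →
    c₁ * (((v : ℝ) - u) * T * V a b c x ^ k) ≤ AP k T S := by
  obtain ⟨C, hC, A, n₀, h⟩ := Pool.Agent.Y843.AC.Gn.dn 2 k 4 1 hk (by norm_num)
    (show (0 : ℝ) < 1 / 2 by norm_num) hδ
  obtain ⟨n₁, h1⟩ := wide U
  refine ⟨C, hC, A, max (max n₀ n₁) 1, ?_⟩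
  intro x hx a b c ha hpos u v huv hvx hlong T hT hTv S hS hcard
  obtain ⟨g1, g2, g3⟩ := h1 x (by omega) u v huv hvx hlong
  have h2 := (h x (by omega) (Pool.Agent.Y843.QD.Zq a b c) (Pool.Agent.Y843.AQ.cl hpos x) u (v - u) T g1 g2 hT hTv S
    (hS.trans (P_sub a b c u v huv)) (most ha x (by omega) S hS)).1
  rw [g3, ← V_eq] at h2
  exact h2 hcard

lemma AP_one (T : ℕ) (S : Finset ℕ) : AP 1 T S = S.card * T := by
  classical
  unfold AP
  rw [filter_true_of_mem, card_product, Nat.card_Icc, Nat.add_sub_cancel]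
  intro q hq j hj
  rw [mem_product] at hq
  have : j = 0 := by omega
  rw [this, zero_mul, add_zero]
  exact hq.1

/-- the upper bound for the number of the primes -/
theorem up_card (U : ℕ) : ∃ C₁ : ℝ, 0 < C₁ ∧ ∃ x₀ : ℕ, ∀ x : ℕ, x₀ ≤ x →
    ∀ a b c : ℕ, 1 ≤ a → Possible a b c → ∀ u v : ℕ, u ≤ v → v ≤ x →
    (x : ℝ) ≤ ((v : ℝ) - u) * Real.log x ^ U →
    ((P a b c u v).card : ℝ) ≤ C₁ * (((v : ℝ) - u) * V a b c x) := by
  obtain ⟨C, hC, A, n₀, h⟩ := up U 1 le_rfl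
  refine ⟨C, hC, max n₀ 3, ?_⟩
  intro x hx a b c ha hpos u v huv hvx hlong
  have hl := Pool.Agent.Y843.AC.HL.log_one (show 3 ≤ x by omega)
  obtain ⟨T, hT⟩ : ∃ T : ℕ, T = ⌈Real.log x ^ A⌉₊ := ⟨_, rfl⟩
  have hT1 : Real.log x ^ A ≤ T := by rw [hT]; exact Nat.le_ceil _
  have hT0 : (0 : ℝ) < T := lt_of_lt_of_le (by positivity) hT1
  have h1 := h x (by omega) a b c ha hpos u v huv hvx hlong T hT1 _ subset_rfl
  rw [AP_one, pow_one] at h1
  push_cast at h1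
  have h2 : ((P a b c u v).card : ℝ) * T ≤ C * (((v : ℝ) - u) * V a b c x) * T := by
    calc _ ≤ C * (((v : ℝ) - u) * T * V a b c x) := h1
      _ = _ := by ring
  exact le_of_mul_le_mul_right h2 hT0

theorem V_pos : ∃ x₀ : ℕ, ∀ x : ℕ, x₀ ≤ x → ∀ a b c : ℕ, Possible a b c → 0 < V a b c x := by
  obtain ⟨c₀, hc₀, x₀, h⟩ := Pool.Agent.Y843.AC.Gn.V_low 2
  refine ⟨max x₀ 3, fun x hx a b c hpos => ?_⟩
  have h1 := h x (by omega) _ (Pool.Agent.Y843.AQ.cl hpos x)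
  have hl := Pool.Agent.Y843.AC.HL.log_one (show 3 ≤ x by omega)
  rw [V_eq]
  exact lt_of_lt_of_le (by positivity) h1

/-- Let `U, K` be given. There is `C` such that the following holds. For all `x, D, B, c` let the coefficients
`a ≤ D`, `b ≤ B` vary, where `log ^ C x ≤ D ≤ x ^ K`, `D x / log ^ K x ≤ B ≤ D x log ^ K x`, `1 ≤ c ≤ B x` (for
instance `c = 1`). There is a set `Bad x D B c` of pairs `(a, b)`, of at most `D B / log ^ U x` pairs for large
`x`, such that for all `k ≥ 1`, all large `x`, all `D, B, c`, all `(a, b)` outside this set such that no prime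
divides all values of `f(n) = a n ^ 2 + b n + c`, and all `u < v ≤ x` with `X = v - u ≥ x / log ^ U x`:

1. the number of the `n` in `(u, v]` with `f(n)` prime is between `c₁ X V` and `C₁ X V`, and for all `T` between
  `log ^ A x` and `X` the number of the progressions of `k` of them, with differences at most `T`, is between
  `c₁ X T V ^ k` and `C₁ X T V ^ k`; here `V = ∏_{p ≤ x} (1 - ρ(p) / p)`;
2. for every `δ > 0`: every subset of at least `δ` times as many of them contains at least `c₂ X T V ^ k`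
  progressions, for all `T` between `log ^ A x` and `X`, and in every subset `S` all elements but at most `δ`
  times the number of the `n` in `(u, v]` with `f(n)` prime lie in progressions of `k` elements of `S` with
  differences at most `log ^ A x`. -/
theorem result (U K : ℕ) : ∃ C : ℕ, ∃ Bad : ℕ → ℕ → ℕ → ℕ → Finset (ℕ × ℕ),
    (∃ x₀ : ℕ, ∀ x D B c : ℕ, x₀ ≤ x → Rng C K x D B c →
      Bad x D B c ⊆ Icc 1 D ×ˢ Icc 1 B ∧ ((Bad x D B c).card : ℝ) ≤ D * B / Real.log x ^ U) ∧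
    ∀ k : ℕ, 1 ≤ k →
      (∃ c₁ C₁ : ℝ, 0 < c₁ ∧ 0 < C₁ ∧ ∃ A x₀ : ℕ, ∀ x D B c : ℕ, x₀ ≤ x → Rng C K x D B c →
        ∀ a ∈ Icc 1 D, ∀ b ∈ Icc 1 B, (a, b) ∉ Bad x D B c → Possible a b c →
        ∀ u v : ℕ, u ≤ v → v ≤ x → (x : ℝ) ≤ ((v : ℝ) - u) * Real.log x ^ U →
          c₁ * (((v : ℝ) - u) * V a b c x) ≤ (P a b c u v).card ∧
          ((P a b c u v).card : ℝ) ≤ C₁ * (((v : ℝ) - u) * V a b c x) ∧
          ∀ T : ℕ, Real.log x ^ A ≤ T → T ≤ v - u →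
            c₁ * (((v : ℝ) - u) * T * V a b c x ^ k) ≤ AP k T (P a b c u v) ∧
            (AP k T (P a b c u v) : ℝ) ≤ C₁ * (((v : ℝ) - u) * T * V a b c x ^ k)) ∧
      ∀ δ : ℝ, 0 < δ → ∃ c₂ : ℝ, 0 < c₂ ∧ ∃ A x₀ : ℕ, ∀ x D B c : ℕ, x₀ ≤ x → Rng C K x D B c →
        ∀ a ∈ Icc 1 D, ∀ b ∈ Icc 1 B, (a, b) ∉ Bad x D B c → Possible a b c →
        ∀ u v : ℕ, u ≤ v → v ≤ x → (x : ℝ) ≤ ((v : ℝ) - u) * Real.log x ^ U → ∀ S ⊆ P a b c u v,
          (δ * (P a b c u v).card ≤ S.card → ∀ T : ℕ, Real.log x ^ A ≤ T → T ≤ v - u →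
            c₂ * (((v : ℝ) - u) * T * V a b c x ^ k) ≤ AP k T S) ∧
          ((outside k (Real.log x ^ A) S).card : ℝ) ≤ δ * (P a b c u v).card := by
  classical
  obtain ⟨C, c₀, hc₀, X₀, hcount⟩ := Pool.Agent.Y843.AQ.count U K
  have hex : ∀ x D B c : ℕ, ∃ Bad : Finset (ℕ × ℕ), X₀ ≤ x → Rng C K x D B c →
      Bad ⊆ Icc 1 D ×ˢ Icc 1 B ∧ (Bad.card : ℝ) ≤ D * B / Real.log x ^ U ∧
      ∀ a ∈ Icc 1 D, ∀ b ∈ Icc 1 B, (a, b) ∉ Bad → Possible a b c → ∀ u v : ℕ, u ≤ v → v ≤ x →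
        (x : ℝ) ≤ ((v : ℝ) - u) * Real.log x ^ U →
        c₀ * (((v : ℝ) - u) * V a b c x) ≤ ((P a b c u v).card : ℝ) := by
    intro x D B c
    by_cases h : X₀ ≤ x ∧ Rng C K x D B c
    · obtain ⟨h1, h2, h3, h4, h5, h6, h7⟩ := h
      obtain ⟨Bad, g1, g2, g3⟩ := hcount x h1 D B h2 h3 h4 h5 c h6 h7
      refine ⟨Bad, fun _ _ => ⟨g1, g2, ?_⟩⟩
      intro a ha b hb hab hpos u v huv hvx hlong
      rw [V_eq]
      exact g3 a ha b hb hab hpos u v huv hvx hlong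
    · exact ⟨∅, fun h1 h2 => absurd ⟨h1, h2⟩ h⟩
  choose Bad hBad using hex
  have second : ∀ k : ℕ, 1 ≤ k → ∀ δ : ℝ, 0 < δ → ∃ c₂ : ℝ, 0 < c₂ ∧ ∃ A x₀ : ℕ, ∀ x D B c : ℕ,
      x₀ ≤ x → Rng C K x D B c → ∀ a ∈ Icc 1 D, ∀ b ∈ Icc 1 B, (a, b) ∉ Bad x D B c → Possible a b c →
      ∀ u v : ℕ, u ≤ v → v ≤ x → (x : ℝ) ≤ ((v : ℝ) - u) * Real.log x ^ U → ∀ S ⊆ P a b c u v,
        δ * (P a b c u v).card ≤ S.card → ∀ T : ℕ, Real.log x ^ A ≤ T → T ≤ v - u →
          c₂ * (((v : ℝ) - u) * T * V a b c x ^ k) ≤ AP k T S := by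
    intro k hk δ hδ
    obtain ⟨c₂, hc₂, A, n₀, h⟩ := dn U k hk (δ * c₀) (by positivity)
    refine ⟨c₂, hc₂, A, max n₀ X₀, ?_⟩
    intro x D B c hx hR a ha b hb hab hpos u v huv hvx hlong S hS hcard T hT hTv
    have h1 := (hBad x D B c (by omega) hR).2.2 a ha b hb hab hpos u v huv hvx hlong
    refine h x (by omega) a b c (mem_Icc.1 ha).1 hpos u v huv hvx hlong T hT hTv S hS ?_
    calc δ * c₀ * (((v : ℝ) - u) * V a b c x) = δ * (c₀ * (((v : ℝ) - u) * V a b c x)) := by ring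
      _ ≤ δ * (P a b c u v).card := mul_le_mul_of_nonneg_left h1 hδ.le
      _ ≤ _ := hcard
  refine ⟨C, Bad, ⟨X₀, fun x D B c hx hR => ⟨(hBad x D B c hx hR).1, (hBad x D B c hx hR).2.1⟩⟩, ?_⟩
  intro k hk
  refine ⟨?_, ?_⟩
  · obtain ⟨c₂, hc₂, A, n₀, h⟩ := second k hk 1 one_pos
    obtain ⟨C₁, hC₁, A', n₁, h'⟩ := up U k hk
    obtain ⟨C₂, hC₂, n₂, h''⟩ := up_card U
    obtain ⟨n₃, h3⟩ := V_pos
    refine ⟨min c₀ c₂, max C₁ C₂, lt_min hc₀ hc₂, lt_of_lt_of_le hC₁ (le_max_left _ _), max A A',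
      max (max (max n₀ n₁) (max n₂ n₃)) (max X₀ 3), ?_⟩
    intro x D B c hx hR a ha b hb hab hpos u v huv hvx hlong
    have hl := Pool.Agent.Y843.AC.HL.log_one (show 3 ≤ x by omega)
    have hV := h3 x (by omega) a b c hpos
    have hvu : (0 : ℝ) ≤ (v : ℝ) - u := by
      have : (u : ℝ) ≤ v := by exact_mod_cast huv
      linarith
    have h1 := (hBad x D B c (by omega) hR).2.2 a ha b hb hab hpos u v huv hvx hlong
    refine ⟨?_, ?_, ?_⟩
    · refine le_trans (mul_le_mul_of_nonneg_right (min_le_left _ _) (by positivity)) h1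
    · exact (h'' x (by omega) a b c (mem_Icc.1 ha).1 hpos u v huv hvx hlong).trans
        (mul_le_mul_of_nonneg_right (le_max_right _ _) (by positivity))
    · intro T hT hTv
      have hT1 : Real.log x ^ A ≤ T := (pow_le_pow_right₀ hl (le_max_left _ _)).trans hT
      have hT2 : Real.log x ^ A' ≤ T := (pow_le_pow_right₀ hl (le_max_right _ _)).trans hT
      refine ⟨?_, ?_⟩
      · refine le_trans (mul_le_mul_of_nonneg_right (min_le_right _ _) (by positivity)) ?_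
        exact h x D B c (by omega) hR a ha b hb hab hpos u v huv hvx hlong _ subset_rfl
          (by rw [one_mul]) T hT1 hTv
      · exact (h' x (by omega) a b c (mem_Icc.1 ha).1 hpos u v huv hvx hlong T hT2 _ subset_rfl).trans
          (mul_le_mul_of_nonneg_right (le_max_left _ _) (by positivity))
  · intro δ hδ
    obtain ⟨c₂, hc₂, A, n₀, h⟩ := second k hk δ hδ
    obtain ⟨n₁, h1⟩ := wide U
    obtain ⟨n₂, h2⟩ := Pool.Agent.Y843.AQ.evlog (A + 1) 1 (show (0 : ℝ) < 1 / 2 by norm_num)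
    obtain ⟨n₃, h3⟩ := V_pos
    have e3 := (tendsto_natCast_atTop_atTop (R := ℝ)).eventually
      (Real.tendsto_log_atTop.eventually (Filter.eventually_ge_atTop (2 : ℝ)))
    rw [Filter.eventually_atTop] at e3
    obtain ⟨n₄, h4⟩ := e3
    refine ⟨c₂, hc₂, A + 1, max (max (max n₀ n₁) (max n₂ n₃)) (max n₄ 3), ?_⟩
    intro x D B c hx hR a ha b hb hab hpos u v huv hvx hlong S hS
    have g2 : 2 ≤ Real.log x := h4 x (by omega)
    have hV := h3 x (by omega) a b c hpos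
    obtain ⟨w1, w2, w3⟩ := h1 x (by omega) u v huv hvx hlong
    have g1 := h2 x (by omega)
    rw [one_mul] at g1
    have hlB : 1 ≤ Real.log x ^ A := one_le_pow₀ (by linarith)
    have hAA : Real.log x ^ A ≤ Real.log x ^ (A + 1) := pow_le_pow_right₀ (by linarith) (by omega)
    refine ⟨fun hcard T hT hTv => h x D B c (by omega) hR a ha b hb hab hpos u v huv hvx hlong S hS hcard T
      (hAA.trans hT) hTv, ?_⟩
    obtain ⟨T, hT⟩ : ∃ T : ℕ, T = ⌈Real.log x ^ A⌉₊ := ⟨_, rfl⟩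
    have hT1 : Real.log x ^ A ≤ T := by rw [hT]; exact Nat.le_ceil _
    have hT2 : (T : ℝ) ≤ Real.log x ^ (A + 1) := by
      have h5 : (T : ℝ) < Real.log x ^ A + 1 := by rw [hT]; exact Nat.ceil_lt_add_one (by linarith)
      rw [pow_succ]
      nlinarith
    have hT0 : (0 : ℝ) < T := by linarith
    have hTv : T ≤ v - u := by exact_mod_cast hT2.trans (g1.trans w1)
    obtain ⟨S', hS'⟩ : ∃ S', S' = outside k (Real.log x ^ (A + 1)) S := ⟨_, rfl⟩
    have hsub : S' ⊆ S := by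
      rw [hS']
      unfold outside
      exact filter_subset _ _
    have hAP : AP k T S' = 0 := by
      unfold AP
      rw [card_eq_zero, filter_eq_empty_iff]
      intro q hq hcon
      rw [mem_product, mem_Icc] at hq
      have h5 := hq.1
      rw [hS'] at h5
      unfold outside at h5
      rw [mem_filter] at h5
      apply h5.2
      refine ⟨q.1, q.2, hq.2.1, ?_, fun j hj => hsub (hcon j hj), 0, by omega, by omega⟩
      refine le_trans ?_ hT2
      exact_mod_cast hq.2.2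
    rw [← hS']
    by_contra hcon
    rw [not_le] at hcon
    have h5 := h x D B c (by omega) hR a ha b hb hab hpos u v huv hvx hlong S' (hsub.trans hS) hcon.le T hT1 hTv
    rw [hAP, Nat.cast_zero] at h5
    have hx0 : (0 : ℝ) < x := by exact_mod_cast (show 0 < x by omega)
    have h6 : 0 < (v : ℝ) - u := by
      rw [← w3]
      exact lt_of_lt_of_le (Real.rpow_pos_of_pos hx0 _) w1
    have h7 : 0 < c₂ * (((v : ℝ) - u) * T * V a b c x ^ k) := by positivity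
    linarith

end Pool.Agent.Results.MP_484c84_nt.ProgressionsOfPrimes
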